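import Mathlib

/-! Definitions used in the statement. -/

namespace Pool.Agent.MP_850d05_lc

/-- The arithmetical hierarchy. Level `0` consists of the computable predicates, and `p` is
Sigma `n + 1` when `p x` holds iff some `y` has `¬ q ⟨x, y⟩`, for a Sigma `n` predicate `q`
(so `p` is the projection of a Pi `n` predicate). -/
def IsSigma : ℕ → (ℕ → Prop) → Prop
  | 0, p => ComputablePred p
  | n + 1, p => ∃ q : ℕ → Prop, IsSigma n q ∧ ∀ x, p x ↔ ∃ y, ¬ q (Nat.pair x y)

/-- `X` is a solution to the instance `c` of Hindman's theorem: an infinite set of positive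
integers such that `c` is constant on the sums of nonempty finite subsets of `X`. -/
def IsSolution {k : ℕ} (c : ℕ → Fin k) (X : Set ℕ) : Prop :=
  X.Infinite ∧ (∀ x ∈ X, 0 < x) ∧
    ∃ i : Fin k, ∀ F : Finset ℕ, F.Nonempty → (F : Set ℕ) ⊆ X → c (∑ x ∈ F, x) = i

end Pool.Agent.MP_850d05_lc
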