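import Pool.Agent.MP_850d05_lc.Nodes

/-! Idempotent ultrafilters and the value of the node count modulo three. -/

namespace Pool.Agent.MP_850d05_lc

open Filter

/-- A nonzero idempotent ultrafilter on the additive semigroup of naturals. -/
structure Idem (U : Ultrafilter ℕ) : Prop where
  iff : ∀ p : ℕ → Prop, (∀ᶠ m in U, p m) ↔ ∀ᶠ m in U, ∀ᶠ m' in U, p (m + m')
  pos : ∀ᶠ m in U, m ≠ 0

theorem fs_finset {X : Set ℕ} {a : Stream' ℕ} {m : ℕ} (hm : m ∈ Hindman.FS a)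
    (hmono : StrictMono a.get) (hX : ∀ i, a.get i ∈ X) :
    ∃ G : Finset ℕ, G.Nonempty ∧ (∀ x ∈ G, x ∈ X ∧ a.head ≤ x) ∧ ∑ x ∈ G, x = m := by
  induction hm with
  | head' a => exact ⟨{a.head}, by simp, by simpa using hX 0, by simp⟩
  | tail' a m _ ih =>
    obtain ⟨G, h1, h2, h3⟩ := ih (fun i j h => hmono (Nat.succ_lt_succ h)) fun i => hX (i + 1)
    have : a.head < a.tail.head := hmono (Nat.zero_lt_one)
    exact ⟨G, h1, fun x hx => ⟨(h2 x hx).1, by have := (h2 x hx).2; omega⟩, h3⟩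
  | cons' a m _ ih =>
    obtain ⟨G, h1, h2, h3⟩ := ih (fun i j h => hmono (Nat.succ_lt_succ h)) fun i => hX (i + 1)
    have : a.head < a.tail.head := hmono (Nat.zero_lt_one)
    have hn : a.head ∉ G := fun h => by have := (h2 _ h).2; omega
    refine ⟨insert a.head G, by simp, ?_, by rw [Finset.sum_insert hn, h3]⟩
    intro x hx
    rcases Finset.mem_insert.1 hx with rfl | hx
    · exact ⟨hX 0, le_rfl⟩
    · exact ⟨(h2 x hx).1, by have := (h2 x hx).2; omega⟩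

theorem exists_idem {X : Set ℕ} (hX : X.Infinite) (h0 : ∀ x ∈ X, 0 < x) :
    ∃ U : Ultrafilter ℕ, Idem U ∧
      ∀ᶠ t in U, ∃ G : Finset ℕ, G.Nonempty ∧ (G : Set ℕ) ⊆ X ∧ ∑ x ∈ G, x = t := by
  obtain ⟨U, hU, hFS⟩ := Hindman.exists_idempotent_ultrafilter_le_FS
    (fun i => Nat.nth (· ∈ X) i : Stream' ℕ)
  have h2 : ∀ᶠ t in U, ∃ G : Finset ℕ, G.Nonempty ∧ (G : Set ℕ) ⊆ X ∧ ∑ x ∈ G, x = t := by
    filter_upwards [hFS] with t ht
    obtain ⟨G, g1, g2, g3⟩ := fs_finset (X := X) ht (Nat.nth_strictMono hX)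
      fun i => Nat.nth_mem_of_infinite hX i
    exact ⟨G, g1, fun x hx => (g2 x hx).1, g3⟩
  refine ⟨U, ⟨fun p => ?_, ?_⟩, h2⟩
  · rw [← Ultrafilter.eventually_add, hU]
  · filter_upwards [h2] with t ⟨G, ⟨x, hx⟩, g2, g3⟩
    have h3 : x ≤ ∑ x ∈ G, x := Finset.single_le_sum (f := fun x => x) (fun _ _ => Nat.zero_le _) hx
    have := h0 x (g2 hx)
    omega

variable {U : Ultrafilter ℕ}

theorem exists_value (U : Ultrafilter ℕ) (g : ℕ → ℕ) (q : ℕ) (hg : ∀ t, g t < q) :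
    ∃ r, ∀ᶠ t in U, g t = r := by
  have h : (⋃ r ∈ Set.Iio q, {t | g t = r}) ∈ U := by
    refine mem_of_superset univ_mem fun t _ => ?_
    simp only [Set.mem_iUnion]
    exact ⟨g t, hg t, rfl⟩
  obtain ⟨r, -, hr⟩ := (Ultrafilter.finite_biUnion_mem_iff (Set.finite_Iio q)).1 h
  exact ⟨r, hr⟩

theorem Idem.triple (hU : Idem U) {P : ℕ → Prop} {R : ℕ → ℕ → Prop} (hP : ∀ᶠ t in U, P t)
    (hR : ∀ᶠ s in U, ∀ᶠ t in U, R s t) : ∃ s t, P s ∧ P t ∧ P (s + t) ∧ R s t := by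
  obtain ⟨s, h1, h2, h3⟩ := (hP.and (((hU.iff P).1 hP).and hR)).exists
  obtain ⟨t, h4, h5, h6⟩ := (hP.and (h2.and h3)).exists
  exact ⟨s, t, h1, h4, h5, h6⟩

theorem Idem.dvd (hU : Idem U) {q : ℕ} (hq : 0 < q) : ∀ᶠ t in U, q ∣ t := by
  obtain ⟨r, hr⟩ := exists_value U (· % q) q fun t => Nat.mod_lt t hq
  obtain ⟨s, t, h1, h2, h3, -⟩ := hU.triple hr (R := fun _ _ => True) (by simp)
  have h4 : s + t ≡ s + 0 [MOD q] := by
    unfold Nat.ModEq
    rw [h3, add_zero, h1]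
  have h5 : t % q = 0 := by simpa [Nat.ModEq] using Nat.ModEq.add_left_cancel' s h4
  filter_upwards [hr] with m hm
  exact Nat.dvd_of_mod_eq_zero (by omega)

/-- The binary support. -/
def supp (t : ℕ) : Set ℕ := {a | t.testBit a = true}

theorem supp_lt {t a : ℕ} (h : a ∈ supp t) : a < t :=
  (Nat.lt_two_pow_self).trans_le (Nat.ge_two_pow_of_testBit h)

theorem supp_nonempty {t : ℕ} (h : t ≠ 0) : ∃ a, a ∈ supp t := Nat.exists_testBit_of_ne_zero h

theorem supp_ge {t K a : ℕ} (h : 2 ^ K ∣ t) (ha : a ∈ supp t) : K ≤ a := by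
  obtain ⟨u, rfl⟩ := h
  simp only [supp, Set.mem_ofPred_eq, Nat.testBit_two_pow_mul, Bool.and_eq_true,
    decide_eq_true_eq] at ha
  exact ha.1

theorem testBit_add {s t K : ℕ} (hs : s < 2 ^ K) (h : 2 ^ K ∣ t) (a : ℕ) :
    (s + t).testBit a = (s.testBit a || t.testBit a) := by
  obtain ⟨u, rfl⟩ := h
  rw [add_comm, Nat.testBit_two_pow_mul_add u hs, Nat.testBit_two_pow_mul]
  split_ifs with h
  · simp [Nat.not_le.2 h]
  · have : s.testBit a = false :=
      Nat.testBit_lt_two_pow (hs.trans_le (Nat.pow_le_pow_right two_pos (by omega)))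
    simp [this, Nat.not_lt.1 h]

theorem supp_add {s t K : ℕ} (hs : s < 2 ^ K) (h : 2 ^ K ∣ t) :
    supp (s + t) = supp s ∪ supp t := by
  ext a
  simp [supp, testBit_add hs h]

theorem Idem.far (hU : Idem U) (T : ℕ) : ∀ᶠ t in U, ∀ a ∈ supp t, T ≤ a := by
  filter_upwards [hU.dvd (Nat.two_pow_pos T)] with t ht a ha
  exact supp_ge ht ha

theorem Idem.union (hU : Idem U) (s : ℕ) : ∀ᶠ t in U, supp (s + t) = supp s ∪ supp t := by
  filter_upwards [hU.dvd (Nat.two_pow_pos s)] with t ht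
  exact supp_add Nat.lt_two_pow_self ht

variable {F : ℕ → ℕ → ℕ}

theorem stab_of_bdd (hm : ∀ b, Monotone (F b)) (e : ℕ) (h : ∀ b < e, ∃ M, ∀ a, F b a ≤ M) :
    ∃ T, ∀ a, T ≤ a → ∀ a', T ≤ a' → agree F e a a' := by
  induction e with
  | zero => exact ⟨0, fun _ _ _ _ i hi => absurd hi (Nat.not_lt_zero i)⟩
  | succ e ih =>
    obtain ⟨T, hT⟩ := ih fun b hb => h b (by omega)
    obtain ⟨M, hM⟩ := h e (by omega)
    obtain ⟨v, T', hT'⟩ := converges_of_monotone_of_bounded (hm e) hM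
    refine ⟨max T T', fun a ha a' ha' i hi => ?_⟩
    rcases (Nat.lt_succ_iff.1 hi).lt_or_eq with hi | rfl
    · exact hT a (le_of_max_le_left ha) a' (le_of_max_le_left ha') i hi
    · rw [hT' a (le_of_max_le_right ha), hT' a' (le_of_max_le_right ha')]

/-- Along every nonzero idempotent ultrafilter, the node count modulo three tells whether all
rows of `F` are bounded. -/
theorem Idem.nodes (hU : Idem U) (h0 : ∀ b a, a ≤ b → F b a = 0) (h1 : ∀ b a, b < a → F b a ≠ 0)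
    (hm : ∀ b, Monotone (F b)) :
    ∀ᶠ t in U, ((rep F (supp t)).ncard % 3 ≠ 1 ↔ ∀ b, ∃ M, ∀ a, F b a ≤ M) := by
  classical
  obtain ⟨κ, hκ⟩ := exists_value U (fun t => (rep F (supp t)).ncard % 3) 3
    fun t => Nat.mod_lt _ (by norm_num)
  suffices H : κ ≠ 1 ↔ ∀ b, ∃ M, ∀ a, F b a ≤ M by
    filter_upwards [hκ] with t ht
    rw [ht, H]
  by_cases hb : ∀ b, ∃ M, ∀ a, F b a ≤ M
  · refine iff_of_true ?_ hb
    have hR : ∀ᶠ s in U, ∀ᶠ t in U, ∃ δ ≤ 1, (rep F (supp (s + t))).ncard =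
        (rep F (supp s)).ncard + (rep F (supp t)).ncard + δ := by
      refine Eventually.of_forall fun s => ?_
      obtain ⟨T, hT⟩ := stab_of_bdd hm (s + 1) fun b _ => hb b
      filter_upwards [hU.far T, hU.far (s + 1), hU.union s] with t t1 t2 t3
      rw [t3]
      exact case_two h0 h1 (L := s + t) (M := s) (fun a ha => supp_lt (t3 ▸ ha))
        (fun a ha => (supp_lt ha).le) (fun a ha => t2 a ha)
        fun a ha a' ha' => hT a (t1 a ha) a' (t1 a' ha')
    obtain ⟨s, t, p1, p2, p3, δ, p4, p5⟩ := hU.triple hκ hR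
    omega
  · refine iff_of_false ?_ hb
    have hex : ∃ e, ¬ ∃ M, ∀ a, F e a ≤ M := not_forall.1 hb
    set e := Nat.find hex with he
    have hunb : ¬ ∃ M, ∀ a, F e a ≤ M := Nat.find_spec hex
    obtain ⟨T, hT⟩ := stab_of_bdd hm e fun b hb => not_not.1 (Nat.find_min hex hb)
    have hsep : ∀ s, ∀ᶠ t in U, ∀ a ∈ supp s, ∀ a' ∈ supp t, F e a ≠ F e a' := by
      intro s
      push Not at hunb
      obtain ⟨T', hT'⟩ := hunb (F e s)
      filter_upwards [hU.far T'] with t t1 a ha a' ha'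
      have p1 := hm e (supp_lt ha).le
      have p2 := hm e (t1 a' ha')
      omega
    have hsplit : ∀ᶠ s in U, ∃ a ∈ supp s, ∃ a' ∈ supp s, F e a ≠ F e a' := by
      rw [hU.iff]
      filter_upwards [hU.pos] with s hs
      filter_upwards [hU.pos, hU.union s, hsep s] with t t1 t2 t3
      obtain ⟨a, ha⟩ := supp_nonempty hs
      obtain ⟨a', ha'⟩ := supp_nonempty t1
      rw [t2]
      exact ⟨a, Or.inl ha, a', Or.inr ha', t3 a ha a' ha'⟩
    have hR : ∀ᶠ s in U, ∀ᶠ t in U, (rep F (supp (s + t))).ncard + 1 =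
        (rep F (supp s)).ncard + (rep F (supp t)).ncard := by
      filter_upwards [hU.far T, hsplit] with s s1 s2
      filter_upwards [hU.far T, hsplit, hU.far s, hU.union s, hsep s] with t t1 t2 t3 t4 t5
      rw [t4]
      have hge : ∀ a ∈ supp s ∪ supp t, T ≤ a := by
        rintro a (ha | ha)
        · exact s1 a ha
        · exact t1 a ha
      exact case_one h0 (L := s + t) (e := e) (fun a ha => supp_lt (t4 ▸ ha))
        (fun a ha a' ha' => (supp_lt ha).trans_le (t3 a' ha'))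
        (fun a ha a' ha' => hT a (hge a ha) a' (hge a' ha')) t5 s2 t2
    obtain ⟨s, t, p1, p2, p3, p4⟩ := hU.triple hκ hR
    omega

end Pool.Agent.MP_850d05_lc
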