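import Mathlib

/-! Counting the branching nodes of a finite set of sequences. -/

namespace Pool.Agent.MP_850d05_lc

/-- The columns `a` and `a'` agree in the first `b` rows. -/
def agree (F : ℕ → ℕ → ℕ) (b a a' : ℕ) : Prop := ∀ i < b, F i a = F i a'

/-- Branching nodes of the columns in `A`, each represented by its level and its least column. -/
def rep (F : ℕ → ℕ → ℕ) (A : Set ℕ) : Set (ℕ × ℕ) :=
  {p | p.2 ∈ A ∧ (∀ a0 < p.2, a0 ∈ A → ¬ agree F p.1 a0 p.2) ∧
    ∃ a' ∈ A, agree F p.1 p.2 a' ∧ F p.1 p.2 ≠ F p.1 a'}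

variable {F : ℕ → ℕ → ℕ}

theorem agree.symm {b a a' : ℕ} (h : agree F b a a') : agree F b a' a :=
  fun i hi => (h i hi).symm

theorem rep_subset (h0 : ∀ b a, a ≤ b → F b a = 0) {A : Set ℕ} {L : ℕ} (hA : ∀ a ∈ A, a < L) :
    rep F A ⊆ Set.Iio L ×ˢ Set.Iio L := by
  rintro ⟨b, a⟩ ⟨ha, -, a', ha', -, hne⟩
  refine ⟨?_, hA a ha⟩
  by_contra hb
  simp only [Set.mem_Iio, not_lt] at hb
  have h1 := hA a ha
  have h2 := hA a' ha'
  exact hne (by rw [h0 b a (by omega), h0 b a' (by omega)])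

theorem rep_finite (h0 : ∀ b a, a ≤ b → F b a = 0) {A : Set ℕ} {L : ℕ} (hA : ∀ a ∈ A, a < L) :
    (rep F A).Finite :=
  ((Set.finite_Iio L).prod (Set.finite_Iio L)).subset (rep_subset h0 hA)

theorem rep_left {A B : Set ℕ} (hAB : ∀ a ∈ A, ∀ a' ∈ B, a < a') : rep F A ⊆ rep F (A ∪ B) := by
  rintro ⟨b, a⟩ ⟨ha, hmin, a', ha', h1, h2⟩
  refine ⟨Or.inl ha, ?_, a', Or.inl ha', h1, h2⟩
  rintro a0 hlt (h | h)
  · exact hmin a0 hlt h
  · have := hAB a ha a0 h
    simp only at hlt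
    omega

theorem rep_disjoint {A B : Set ℕ} (hAB : ∀ a ∈ A, ∀ a' ∈ B, a < a') :
    Disjoint (rep F A) (rep F B) := by
  rw [Set.disjoint_left]
  rintro ⟨b, a⟩ h1 h2
  exact lt_irrefl _ (hAB a h1.1 a h2.1)

theorem case_one (h0 : ∀ b a, a ≤ b → F b a = 0) {A B : Set ℕ} {L e : ℕ}
    (hL : ∀ a ∈ A ∪ B, a < L) (hAB : ∀ a ∈ A, ∀ a' ∈ B, a < a')
    (hlow : ∀ a ∈ A ∪ B, ∀ a' ∈ A ∪ B, agree F e a a')
    (hsep : ∀ a ∈ A, ∀ a' ∈ B, F e a ≠ F e a')
    (hA : ∃ a ∈ A, ∃ a' ∈ A, F e a ≠ F e a') (hB : ∃ a ∈ B, ∃ a' ∈ B, F e a ≠ F e a') :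
    (rep F (A ∪ B)).ncard + 1 = (rep F A).ncard + (rep F B).ncard := by
  classical
  have hBne : ∃ a, a ∈ B := by obtain ⟨a, ha, -⟩ := hB; exact ⟨a, ha⟩
  set m := Nat.find hBne with hm
  have hmB : m ∈ B := Nat.find_spec hBne
  have hmin : ∀ a < m, a ∉ B := fun a ha => Nat.find_min hBne ha
  have split : ∀ C : Set ℕ, (∃ a ∈ C, ∃ a' ∈ C, F e a ≠ F e a') → ∀ x, ∃ a' ∈ C, F e x ≠ F e a' := by
    rintro C ⟨a, ha, a', ha', hne⟩ x
    by_cases h : F e x = F e a
    · exact ⟨a', ha', h ▸ hne⟩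
    · exact ⟨a, ha, h⟩
  have hroot : (e, m) ∈ rep F B := by
    refine ⟨hmB, fun a0 h1 h2 => absurd h2 (hmin a0 h1), ?_⟩
    obtain ⟨a', ha', hne⟩ := split B hB m
    exact ⟨a', ha', hlow m (Or.inr hmB) a' (Or.inr ha'), hne⟩
  have key : rep F (A ∪ B) = rep F A ∪ (rep F B \ {(e, m)}) := by
    apply Set.Subset.antisymm
    · rintro ⟨b, a⟩ ⟨ha, hmn, a', ha', h1, h2⟩
      simp only at ha hmn h1 h2
      rcases lt_trichotomy b e with hb | rfl | hb
      · exact absurd (hlow a ha a' ha' b hb) h2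
      · left
        have haA : a ∈ A := by
          rcases ha with ha | ha
          · exact ha
          · obtain ⟨a0, ha0, -⟩ := hA
            exact absurd (hlow a0 (Or.inl ha0) a (Or.inr ha)) (hmn a0 (hAB a0 ha0 a ha) (Or.inl ha0))
        obtain ⟨a1, ha1, hne⟩ := split A hA a
        exact ⟨haA, fun a0 h3 h4 => hmn a0 h3 (Or.inl h4), a1, ha1, hlow a ha a1 (Or.inl ha1), hne⟩
      · rcases ha with ha | ha
        · left
          refine ⟨ha, fun a0 h3 h4 => hmn a0 h3 (Or.inl h4), a', ?_, h1, h2⟩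
          rcases ha' with ha' | ha'
          · exact ha'
          · exact absurd (h1 e hb) (hsep a ha a' ha')
        · right
          refine ⟨⟨ha, fun a0 h3 h4 => hmn a0 h3 (Or.inr h4), a', ?_, h1, h2⟩, ?_⟩
          · rcases ha' with ha' | ha'
            · exact absurd (h1 e hb).symm (hsep a' ha' a ha)
            · exact ha'
          · simp only [Set.mem_singleton_iff, Prod.mk.injEq, not_and]
            omega
    · rintro ⟨b, a⟩ (h | ⟨⟨ha, hmn, a', ha', h1, h2⟩, hne⟩)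
      · exact rep_left hAB h
      · simp only at ha hmn h1 h2
        simp only [Set.mem_singleton_iff, Prod.mk.injEq, not_and] at hne
        refine ⟨Or.inr ha, ?_, a', Or.inr ha', h1, h2⟩
        rintro a0 hlt (h3 | h3)
        · rcases lt_trichotomy b e with hb | rfl | hb
          · exact absurd (hlow a (Or.inr ha) a' (Or.inr ha') b hb) h2
          · exfalso
            have h4 : m ≤ a := Nat.find_min' hBne ha
            rcases h4.lt_or_eq with h4 | h4
            · exact hmn m h4 hmB (hlow m (Or.inr hmB) a (Or.inr ha))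
            · exact hne rfl h4.symm
          · exact fun h => hsep a0 h3 a ha (h e hb)
        · exact hmn a0 hlt h3
  have fA : (rep F A).Finite := rep_finite h0 fun a ha => hL a (Or.inl ha)
  have fB : (rep F B).Finite := rep_finite h0 fun a ha => hL a (Or.inr ha)
  rw [key, Set.ncard_union_eq ((rep_disjoint hAB).mono_right Set.sdiff_subset) fA
    (fB.subset Set.sdiff_subset), add_assoc, Set.ncard_sdiff_singleton_add_one hroot fB]

theorem case_two (h0 : ∀ b a, a ≤ b → F b a = 0) (h1 : ∀ b a, b < a → F b a ≠ 0)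
    {A B : Set ℕ} {L M : ℕ} (hL : ∀ a ∈ A ∪ B, a < L) (hA : ∀ a ∈ A, a ≤ M)
    (hB : ∀ a ∈ B, M < a) (hstab : ∀ a ∈ B, ∀ a' ∈ B, agree F (M + 1) a a') :
    ∃ δ ≤ 1, (rep F (A ∪ B)).ncard = (rep F A).ncard + (rep F B).ncard + δ := by
  have hAB : ∀ a ∈ A, ∀ a' ∈ B, a < a' := fun a ha a' ha' => (hA a ha).trans_lt (hB a' ha')
  have hsep : ∀ a ∈ A, ∀ a' ∈ B, F M a ≠ F M a' := fun a ha a' ha' h =>
    h1 M a' (hB a' ha') (h ▸ h0 M a (hA a ha))
  have hsub : rep F A ∪ rep F B ⊆ rep F (A ∪ B) := by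
    rintro ⟨b, a⟩ (h | ⟨ha, hmn, a', ha', h2, h3⟩)
    · exact rep_left hAB h
    · simp only at ha hmn h2 h3
      refine ⟨Or.inr ha, ?_, a', Or.inr ha', h2, h3⟩
      rintro a0 hlt (h4 | h4)
      · have hb : M < b := by
          by_contra hb
          exact h3 (hstab a ha a' ha' b (by omega))
        exact fun h => hsep a0 h4 a ha (h M hb)
      · exact hmn a0 hlt h4
  have hext : ∀ b a, (b, a) ∈ rep F (A ∪ B) \ (rep F A ∪ rep F B) →
      a ∈ A ∧ b ≤ M ∧ (∀ a0 < a, a0 ∈ A → ¬ agree F b a0 a) ∧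
      (∀ a' ∈ A, agree F b a a' → F b a = F b a') ∧
      ∃ a' ∈ B, agree F b a a' ∧ F b a ≠ F b a' := by
    rintro b a ⟨⟨ha, hmn, a', ha', h2, h3⟩, hn⟩
    simp only at ha hmn h2 h3
    have haA : a ∈ A := by
      rcases ha with ha | ha
      · exact ha
      · exfalso
        rcases ha' with ha' | ha'
        · exact hmn a' (hAB a' ha' a ha) (Or.inl ha') h2.symm
        · exact hn (Or.inr ⟨ha, fun a0 h4 h5 => hmn a0 h4 (Or.inr h5), a', ha', h2, h3⟩)
    have hno : ∀ a' ∈ A, agree F b a a' → F b a = F b a' := by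
      intro a1 ha1 h4
      by_contra h5
      exact hn (Or.inl ⟨haA, fun a0 h6 h7 => hmn a0 h6 (Or.inl h7), a1, ha1, h4, h5⟩)
    have haB : a' ∈ B := by
      rcases ha' with ha' | ha'
      · exact absurd (hno a' ha' h2) h3
      · exact ha'
    refine ⟨haA, ?_, fun a0 h4 h5 => hmn a0 h4 (Or.inl h5), hno, a', haB, h2, h3⟩
    by_contra hb
    exact hsep a haA a' haB (h2 M (by omega))
  have hss : (rep F (A ∪ B) \ (rep F A ∪ rep F B)).Subsingleton := by
    have aux : ∀ b a b1 a1, b ≤ b1 → (b, a) ∈ rep F (A ∪ B) \ (rep F A ∪ rep F B) →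
        (b1, a1) ∈ rep F (A ∪ B) \ (rep F A ∪ rep F B) → b = b1 ∧ a = a1 := by
      intro b a b1 a1 hb hp hq
      obtain ⟨p1, p2, p3, p4, x, p5, p6, p7⟩ := hext b a hp
      obtain ⟨q1, q2, q3, q4, y, q5, q6, q7⟩ := hext b1 a1 hq
      have hag : agree F b a a1 := fun i hi =>
        (p6 i hi).trans ((hstab x p5 y q5 i (by omega)).trans (q6 i (by omega)).symm)
      have hbb : b = b1 := by
        by_contra hne
        exact p7 ((p4 a1 q1 hag).trans ((q6 b (by omega)).trans (hstab y q5 x p5 b (by omega))))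
      subst hbb
      refine ⟨rfl, ?_⟩
      rcases lt_trichotomy a a1 with h | h | h
      · exact absurd hag (q3 a h p1)
      · exact h
      · exact absurd hag.symm (p3 a1 h q1)
    rintro ⟨b, a⟩ hp ⟨b1, a1⟩ hq
    rcases le_total b b1 with h | h
    · obtain ⟨rfl, rfl⟩ := aux b a b1 a1 h hp hq
      rfl
    · obtain ⟨rfl, rfl⟩ := aux b1 a1 b a h hq hp
      rfl
  have fA : (rep F A).Finite := rep_finite h0 fun a ha => hL a (Or.inl ha)
  have fB : (rep F B).Finite := rep_finite h0 fun a ha => hL a (Or.inr ha)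
  have fU : (rep F (A ∪ B)).Finite := rep_finite h0 hL
  refine ⟨(rep F (A ∪ B) \ (rep F A ∪ rep F B)).ncard,
    (Set.ncard_le_one (fU.subset Set.sdiff_subset)).2 fun _ h _ h' => hss h h', ?_⟩
  rw [← Set.ncard_union_eq (rep_disjoint hAB) fA fB, add_comm,
    Set.ncard_sdiff_add_ncard_of_subset hsub fU]

end Pool.Agent.MP_850d05_lc
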